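import Pool.Agent.Helper74.DI.StM

/-! # Project DI, module MCH: the machine accepts `L5` -/

set_option autoImplicit false

namespace Pool.Agent.Helper64.DI

open Pool.Agent.Helper74 Pool.Agent.Helper74.DI

private def loc (l : Lo) : Fin 10 × Bool × Bool :=
  match l with
  | .rs => (0, false, false)
  | .sc => (1, false, false)
  | .l1 t s => (2, t, s)
  | .l2 t s => (3, t, s)
  | .ck => (4, false, false)
  | .ck2 => (5, false, false)
  | .rw => (6, false, false)
  | .nx => (7, false, false)
  | .ac => (8, false, false)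
  | .rj => (9, false, false)

private theorem loc_inj : Function.Injective loc := by
  intro a b h
  cases a <;> cases b <;> simp_all [loc]

private theorem lo_finite : Finite Lo := Finite.of_injective loc loc_inj

private def hdc (h : Hd) : Fin 3 × Bool × Bool :=
  match h with
  | .J => (0, false, false)
  | .R r c => (1, r, c)
  | .T c => (2, c, false)

private theorem hdc_inj : Function.Injective hdc := by
  intro a b h
  cases a <;> cases b <;> simp_all [hdc]

private theorem hd_finite : Finite Hd := Finite.of_injective hdc hdc_inj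

/-- the condition for the modulus `m` -/
private def Gm (w : List Op) (m : ℕ) : Prop :=
  (m : ℤ) ∣ (run w (true, 1, 0)).2.1 - 1 ∧ (m : ℤ) ∣ (run w (true, 1, 0)).2.2

private theorem start_eq : (((.rs, false, fun _ => true), fun _ => 0) : Qm × (Hd → ℕ)) =
    cf .rs false (fun _ => true) 0 (fun _ => 0) 0 0 := by
  unfold cf
  congr 1
  funext h
  cases h <;> simp

private theorem reach_rs (hSTN : StSTN) (hRND : StRND) (w : List Op) : ∀ μ : ℕ,
    μ ≤ w.length + 1 → (∀ m, 1 ≤ m → m ≤ μ → Gm w m) → ∃ (e : Bool) (o : Bool → Bool),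
      Rch (sth dm w) (cf .rs false (fun _ => true) 0 (fun _ => 0) 0 0)
        (cf .rs e o 0 (fun _ => 0) 0 μ) := by
  intro μ
  induction μ with
  | zero => exact fun _ _ => ⟨false, fun _ => true, rch_refl _ _⟩
  | succ μ ih =>
    intro h1 h2
    obtain ⟨e, o, h3⟩ := ih (by omega) (fun m hm hm' => h2 m hm (by omega))
    obtain ⟨e', o', h4⟩ := (hRND w μ (by omega) e o).1 (h2 (μ + 1) (by omega) le_rfl)
    refine ⟨e', o', rch_trans _ _ _ _ h3 (rch_trans _ _ _ _ h4 ?_)⟩
    exact rch_step _ _ _ ((hSTN w e' o' μ).2.1 (by omega))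

private theorem iterate_fixed {X : Type} (f : X → X) (c : X) (h : f c = c) (n : ℕ) :
    f^[n] c = c := by
  induction n with
  | zero => rfl
  | succ n ih => rw [Function.iterate_succ_apply, h, ih]

theorem hMCH (hSTN : StSTN) (hRND : StRND) : StMCH := by
  have := lo_finite
  refine ⟨Qm, inferInstance, Hd, hd_finite, dm, (.rs, false, fun _ => true), {q | q.1 = .ac}, ?_⟩
  intro w
  rw [start_eq]
  constructor
  · intro hw
    have hg : ∀ m, 1 ≤ m → m ≤ w.length + 2 → Gm w m := fun m h1 h2 => hw m h1 h2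
    obtain ⟨e, o, h3⟩ := reach_rs hSTN hRND w (w.length + 1) le_rfl
      (fun m h1 h2 => hg m h1 (by omega))
    obtain ⟨e', o', h4⟩ := (hRND w (w.length + 1) le_rfl e o).1
      (hg (w.length + 1 + 1) (by omega) le_rfl)
    have h5 := rch_trans _ _ _ _ h3 (rch_trans _ _ _ _ h4
      (rch_step _ _ _ ((hSTN w e' o' (w.length + 1)).1 rfl)))
    obtain ⟨n, hn⟩ := h5
    refine ⟨n, ?_⟩
    rw [hn]
    exact rfl
  · rintro ⟨n, hn⟩
    by_contra hw
    have hbad : ∃ m, 1 ≤ m ∧ m ≤ w.length + 2 ∧ ¬ Gm w m := by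
      by_contra hc
      push Not at hc
      exact hw fun m h1 h2 => hc m h1 h2
    classical
    obtain ⟨h1, h2, h3⟩ := Nat.find_spec hbad
    obtain ⟨μ, hμ⟩ : ∃ μ, Nat.find hbad = μ + 1 := ⟨Nat.find hbad - 1, by omega⟩
    have hmin : ∀ m, 1 ≤ m → m ≤ μ → Gm w m := by
      intro m hm1 hm2
      have h4 := Nat.find_min hbad (m := m) (by omega)
      by_contra h5
      exact h4 ⟨hm1, by omega, h5⟩
    rw [hμ] at h2 h3
    obtain ⟨e, o, h6⟩ := reach_rs hSTN hRND w μ (by omega) hmin
    obtain ⟨d, h7, h8⟩ := (hRND w μ (by omega) e o).2 h3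
    obtain ⟨k, hk⟩ := rch_trans _ _ _ _ h6 h7
    have hn' : ((sth dm w)^[n] (cf .rs false (fun _ => true) 0 (fun _ => 0) 0 0)).1.1 = .ac := hn
    have fd : sth dm w d = d := (hSTN w false (fun _ => true) 0).2.2 d (Or.inr h8)
    have fa := (hSTN w false (fun _ => true) 0).2.2 _ (Or.inl hn')
    rcases le_total n k with hnk | hnk
    · obtain ⟨j, rfl⟩ := Nat.exists_eq_add_of_le hnk
      rw [Nat.add_comm, Function.iterate_add_apply, iterate_fixed _ _ fa] at hk
      rw [← hk, hn'] at h8
      exact absurd h8 (by simp)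
    · obtain ⟨j, rfl⟩ := Nat.exists_eq_add_of_le hnk
      rw [Nat.add_comm, Function.iterate_add_apply, hk, iterate_fixed _ _ fd, h8] at hn'
      exact absurd hn' (by simp)

end Pool.Agent.Helper64.DI
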